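import Pool.Agent.Work.MP_13b5d9_gt.CS.MxFin

set_option autoImplicit false

/-!
# MP_13b5d9_gt: the geodesic flow of a metric without conjugate points splits coarsely

A closed manifold `N = R^(m+1) / G` (for example `N = M x S^1`, `M = R^m / Γ`, `G = Γ x Z`,
`z = (1, 1)`), a central element `z ≠ 1` of `G` and ANY metric `g` of `N` without conjugate points.
Let `V = grad τ` be the canonical field of `z`, with flow `ψ` and period `l` (`Axis`), and `gb` the
harmonic mean of the metrics `ψ_r^* g`, `0 ≤ r ≤ l` (`HarmMean`), which is split along `z`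
(`SplitAlong`).  There are a function `e (x, v)` and a constant `Λ` such that, for unit vectors `v`:

* `e (x, V) = 1`, `e (x, -V) = -1`, `e` is `G`-invariant and upper semicontinuous;
* `g` is split along `z` if and only if, for every `x`, the homogeneous extension
  `v ↦ |v| e (x, v / |v|)` is convex;
* `1 - e` and `1 - g (V, v)`, and also `1 + e` and `1 + g (V, v)`, are comparable, and `1 - e` is
  asymptotic for `v → V` to half the square of the `gb`-norm of the linear form `g (v - V, .)`;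
* `e` is a first integral: it is constant along every unit speed geodesic `c` of `R^(m+1)`;
* `c` is calibrated: `t - s + e k l ≤ d (c s, z^k c t)` for all integers `k` and `s ≤ t` (in the
  quotient of `R^(m+1)` by `z`, `c` minimizes length minus `e` times the increment of `τ`);
* the projection of `c` to the space of integral curves of `V` is a quasi-geodesic: the distance
  `dq (c s, c t)` of `gb` is, with `b = sqrt (1 - e^2)`, at least `b (t - s - Λ) / Λ` and at most
  `Λ b (t - s)`;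
* if the space of integral curves of `V` is Gromov hyperbolic (for `N = M x S^1`: if the universal
  covering of `M` is) then the projections of all geodesics `c` are uniformly close to geodesics:
  `dq (c s, c u) + dq (c u, c t) ≤ dq (c s, c t) + D` for `s ≤ u ≤ t`, with `D` independent of `c`.

The definitions are in the files `MP_25cd3b_gt/Mx/Defs`, `MP_13b5d9_gt/PI/MxDefs`,
`MP_13b5d9_gt/PI/MxNoConj`, `MP_13b5d9_gt/LQ/MxSplit`, `MP_13b5d9_gt/AV/MxAvg`,
`MP_13b5d9_gt/CS/MxDual`.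
-/

open MeasureTheory Filter Topology
open Pool.Agent.Mx

namespace Pool.Agent.Results.MP_13b5d9_gt.CoarseSplitting

theorem result (m : ℕ) (G : Type) [Group G] [MulAction G (E (m + 1))]
    (hG : Cocompact (m + 1) G)
    (g : E (m + 1) → Matrix (Fin (m + 1)) (Fin (m + 1)) ℝ) (hg : Met g) (hi : Inv G g)
    (hN : NoConj g) (z : G) (hz : z ≠ 1) (hc : ∀ a : G, a * z = z * a) :
    ∃ (l : ℝ) (V : E (m + 1) → E (m + 1)) (τ : E (m + 1) → ℝ) (ψ : ℝ → E (m + 1) → E (m + 1))
      (gb : E (m + 1) → Matrix (Fin (m + 1)) (Fin (m + 1)) ℝ)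
      (e : E (m + 1) → E (m + 1) → ℝ) (Λ : ℝ),
      Axis (m + 1) G g z l V τ ψ ∧ HarmMean g l ψ gb ∧ SplitAlong m G z gb ∧ 1 ≤ Λ ∧
      (∀ x, e x (V x) = 1 ∧ e x (-V x) = -1) ∧
      (SplitAlong m G z g ↔
        ∀ x, ConvexOn ℝ Set.univ (fun v => len g x v * e x ((len g x v)⁻¹ • v))) ∧
      (∀ (a : G) (x v : E (m + 1)), e (a • x) (dac a x v) = e x v) ∧
      UpperSemicontinuousOn (fun p : E (m + 1) × E (m + 1) => e p.1 p.2)
        {p | qf (g p.1) p.2 p.2 = 1} ∧
      (∀ x v : E (m + 1), qf (g x) v v = 1 →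
        (1 - e x v ≤ Λ * (1 - qf (g x) (V x) v) ∧ 1 - qf (g x) (V x) v ≤ Λ * (1 - e x v)) ∧
        1 + e x v ≤ Λ * (1 + qf (g x) (V x) v) ∧ 1 + qf (g x) (V x) v ≤ Λ * (1 + e x v)) ∧
      (∀ ε : ℝ, 0 < ε → ∃ δ : ℝ, 0 < δ ∧ ∀ x v : E (m + 1), qf (g x) v v = 1 →
        1 - qf (g x) (V x) v < δ →
        |1 - e x v - 1 / 2 * dn g gb x (v - V x)| ≤ ε * (1 - qf (g x) (V x) v)) ∧
      (∀ c : ℝ → E (m + 1), UnitGeo g c →
        (∀ t, e (c t) (deriv c t) = e (c 0) (deriv c 0)) ∧
        (∀ (k : ℤ) (s t : ℝ), s ≤ t →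
          t - s + e (c 0) (deriv c 0) * (k * l) ≤ gd g (c s) (z ^ k • c t)) ∧
        ∀ s t : ℝ, s ≤ t →
          Real.sqrt (1 - e (c 0) (deriv c 0) ^ 2) * (t - s - Λ) ≤ Λ * dq gb τ ψ (c s) (c t) ∧
          dq gb τ ψ (c s) (c t) ≤ Λ * (Real.sqrt (1 - e (c 0) (deriv c 0) ^ 2) * (t - s))) ∧
      ∀ δ : ℝ, Hyp4 (dq gb τ ψ) δ → ∃ D : ℝ, ∀ c : ℝ → E (m + 1), UnitGeo g c →
        ∀ s u t : ℝ, s ≤ u → u ≤ t →
          dq gb τ ψ (c s) (c u) + dq gb τ ψ (c u) (c t) ≤ dq gb τ ψ (c s) (c t) + D :=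
  Pool.Agent.CSG.cs_Mx m G hG g hg hi hN z hz hc

end Pool.Agent.Results.MP_13b5d9_gt.CoarseSplitting
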