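import Pool.Agent.Work.MP_13b5d9_gt.LQ.Final

set_option autoImplicit false

/-!
# MP_13b5d9_gt: among the metrics without conjugate points of a closed manifold the metrics which
are split along a central element of the fundamental group form an open and closed set

A closed manifold `N = R^(m+1) / G` (for example `N = M x S^1`, `M = R^m / Γ`, `G = Γ x Z`,
`z = (1, 1)`), a central element `z` of `G` and a family `g s` (`s` in a topological space `S`) of
metrics of `N` without conjugate points, continuous in the `C^∞` topology.  The set of the `s` such
that `g s` is split along `z` (`SplitAlong`: `R^(m+1)` is a Riemannian product `R^m x R`, the group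
acts by products of maps, `z` is a translation of the line) is open and closed in `S`.

For `S` = the set of all metrics of `N` without conjugate points, with the `C^∞` topology: every
split metric has a neighbourhood in which all metrics without conjugate points are split (open), and
limits of split metrics are split (closed).  For connected `S`, for instance a path of metrics
without conjugate points: if one `g s` is split along `z` then all are.

The definitions are in the files `MP_25cd3b_gt/Mx/Defs`, `MP_13b5d9_gt/PI/MxNoConj`,
`MP_13b5d9_gt/LQ/MxSplit`.
-/

open Pool.Agent.Mx

namespace Pool.Agent.Results.MP_13b5d9_gt.OpenClosed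

theorem result (m : ℕ) (G : Type) [Group G] [MulAction G (E (m + 1))]
    (hG : Cocompact (m + 1) G) (z : G) (hz : ∀ a : G, a * z = z * a) (S : Type)
    [TopologicalSpace S] (g : S → E (m + 1) → Matrix (Fin (m + 1)) (Fin (m + 1)) ℝ)
    (hg : Family (m + 1) G S g) : IsClopen {s : S | SplitAlong m G z (g s)} :=
  Pool.Agent.LQK.f_Mx m G hG z hz S g hg

end Pool.Agent.Results.MP_13b5d9_gt.OpenClosed
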