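import Pool.Agent.Work.MP_13b5d9_gt.AV.All

set_option autoImplicit false

/-!
# MP_13b5d9_gt: the split companion of a metric without conjugate points

A closed manifold `N = R^(m+1) / G` (for example `N = M x S^1`, `M = R^m / Γ`, `G = Γ x Z`,
`z = (1, 1)`), a central element `z ≠ 1` of `G` and ANY metric `g` of `N` without conjugate points.
Let `V = grad τ` be the canonical field of `z`, with flow `ψ` and period `l` (`Axis`).  The harmonic
mean `gb` of the metrics `ψ_r^* g`, `0 ≤ r ≤ l` (`HarmMean`), is a metric of `N` without conjugate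
points which is split along `z` (`SplitAlong`); the marked length spectra of `g` and `gb` are
asymptotic in the direction `z`; the volume of `gb` is at most the volume of `g`, with equality if and
only if `g` is split along `z`, if and only if `gb = g`.

The definitions are in the files `MP_25cd3b_gt/Mx/Defs`, `MP_13b5d9_gt/PI/MxDefs`,
`MP_13b5d9_gt/PI/MxNoConj`, `MP_13b5d9_gt/LQ/MxSplit`, `MP_13b5d9_gt/AV/MxAvg`.
-/

open MeasureTheory Filter Topology
open Pool.Agent.Mx

namespace Pool.Agent.Results.MP_13b5d9_gt.SplitCompanion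

theorem result (m : ℕ) (G : Type) [Group G] [MulAction G (E (m + 1))]
    (hG : Cocompact (m + 1) G)
    (g : E (m + 1) → Matrix (Fin (m + 1)) (Fin (m + 1)) ℝ) (hg : Met g) (hi : Inv G g)
    (hN : NoConj g) (z : G) (hz : z ≠ 1) (hc : ∀ a : G, a * z = z * a) :
    ∃ (l : ℝ) (V : E (m + 1) → E (m + 1)) (τ : E (m + 1) → ℝ) (ψ : ℝ → E (m + 1) → E (m + 1))
      (gb : E (m + 1) → Matrix (Fin (m + 1)) (Fin (m + 1)) ℝ),
      Axis (m + 1) G g z l V τ ψ ∧ HarmMean g l ψ gb ∧ Met gb ∧ Inv G gb ∧ NoConj gb ∧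
      SplitAlong m G z gb ∧ (gb = g ↔ SplitAlong m G z g) ∧
      (∀ a : G, Tendsto (fun k : ℕ => L g (z ^ k * a) ^ 2 - L gb (z ^ k * a) ^ 2) atTop (𝓝 0)) ∧
      ∀ D : Set (E (m + 1)), MeasurableSet D → (∀ x : E (m + 1), ∃! a : G, a • x ∈ D) →
        (∫ x in D, dens gb x) ≤ (∫ x in D, dens g x) ∧
        ((∫ x in D, dens gb x) = (∫ x in D, dens g x) ↔ SplitAlong m G z g) :=
  Pool.Agent.AV.av_Mx Pool.Agent.AV.p_Th Pool.Agent.AV.p_Ls Pool.Agent.AV.pr_Mb
    Pool.Agent.AV.p_Si Pool.Agent.MLS.pr_PU Pool.Agent.MLS.p_FD Pool.Agent.MLS.p_NcGa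
    m G hG g hg hi hN z hz hc

end Pool.Agent.Results.MP_13b5d9_gt.SplitCompanion
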